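import Pool.Agent.Y817.WK.Stm

/-!
# WK-DERIVE: consequences of the relations (helper171)
-/

set_option autoImplicit false

namespace Pool.Agent.Y171.WK

open Pool.Agent.Y817.WK

section

variable {V ι : Type} {A : Type} [NonUnitalRing A]

/-- the word `p x_{m 0} x_{m 1} …` -/
def u (g : Gen V ι → A) (m : List V) : A := (m.map Gen.x).foldl (fun u y => u * g y) (g .p)

lemma u_nil (g : Gen V ι → A) : u g [] = g .p := rfl

lemma u_snoc (g : Gen V ι → A) (m : List V) (j : V) : u g (m ++ [j]) = u g m * g (.x j) := by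
  simp [u, List.foldl_append]

variable [Fintype V] [DecidableEq V] [Fintype ι] {n : V} {Q : ι → Quad V} {g : Gen V ι → A}

lemma lem1 (h : Rel n Q g) (k : V) (m : List V) :
    u g m * g (.e k) = -((m.count k : ℤ) • (u g m * g .z)) := by
  induction m using List.reverseRecOn with
  | nil => rw [u_nil, h.pe]; simp
  | append_singleton m j ih =>
    rw [u_snoc, mul_assoc, h.xe j k, mul_sub, ← mul_assoc, ih, List.count_append]
    have h1 : u g m * g .z * g (.x j) = u g m * g (.x j) * g .z := by
      rw [mul_assoc, h.zx, ← mul_assoc]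
    by_cases hjk : j = k
    · subst hjk
      rw [if_pos rfl, neg_mul, smul_mul_assoc, h1, List.count_singleton_self, Nat.cast_add,
        add_smul, Nat.cast_one, one_smul, neg_add, ← mul_assoc]
      abel
    · rw [if_neg hjk, neg_mul, smul_mul_assoc, h1, mul_zero, sub_zero]
      have h2 : List.count k [j] = 0 := List.count_eq_zero.2 (by
        intro h3
        rw [List.mem_singleton] at h3
        exact hjk h3.symm)
      rw [h2, add_zero]

lemma lem2 (h : Rel n Q g) (m : List V)
    (hQ : ∀ s, (Q s).val (fun v => (m.count v : ℤ)) = 0) : u g m * g .z * g .q0 = 0 := by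
  have r0 := congrArg (fun t => u g m * t) h.r0
  have r1 : ∀ k, u g m * g .z * g (.q1 k) + ∑ s, ((Q s).B k • (u g m * g .z * g (.q2 s)) +
      ∑ i, ((Q s).A i k * (m.count i : ℤ)) • (u g m * g .z * g (.q2 s))) = 0 := by
    intro k
    have h1 := congrArg (fun t => u g m * t) (h.r1 k)
    simp only [mul_zero] at h1
    rw [← h1, mul_add, ← mul_assoc, Finset.mul_sum]
    congr 1
    refine Finset.sum_congr rfl fun s _ => ?_
    rw [mul_sub, mul_smul_comm, ← mul_assoc, Finset.mul_sum, sub_eq_add_neg,
      ← Finset.sum_neg_distrib]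
    congr 1
    refine Finset.sum_congr rfl fun i _ => ?_
    rw [mul_smul_comm, ← mul_assoc, lem1 h i m, neg_mul, smul_mul_assoc, smul_neg, neg_neg,
      mul_smul]
  simp only [mul_zero] at r0
  rw [mul_add, mul_add, ← mul_assoc, Finset.mul_sum, Finset.mul_sum] at r0
  have e1 : ∑ k, u g m * (g (.e k) * g (.q1 k)) =
      ∑ k, ∑ s, ((m.count k : ℤ) * (Q s).B k + ∑ i, (Q s).A i k * (m.count i : ℤ) *
        (m.count k : ℤ)) • (u g m * g .z * g (.q2 s)) := by
    refine Finset.sum_congr rfl fun k _ => ?_
    rw [← mul_assoc, lem1 h k m, neg_mul, smul_mul_assoc, eq_neg_of_add_eq_zero_left (r1 k),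
      smul_neg, neg_neg, Finset.smul_sum]
    refine Finset.sum_congr rfl fun s _ => ?_
    rw [add_smul, smul_add, mul_smul, Finset.smul_sum, Finset.sum_smul]
    congr 1
    refine Finset.sum_congr rfl fun i _ => ?_
    rw [← mul_smul]
    congr 1
    ring
  have e2 : ∑ s, u g m * ((Q s).d • (g .z * g (.q2 s))) =
      ∑ s, (Q s).d • (u g m * g .z * g (.q2 s)) := by
    refine Finset.sum_congr rfl fun s _ => ?_
    rw [mul_smul_comm, ← mul_assoc]
  rw [e1, e2, Finset.sum_comm, add_assoc, ← Finset.sum_add_distrib] at r0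
  have e3 : ∀ s, (∑ k, ((m.count k : ℤ) * (Q s).B k + ∑ i, (Q s).A i k * (m.count i : ℤ) *
        (m.count k : ℤ)) • (u g m * g .z * g (.q2 s))) + (Q s).d • (u g m * g .z * g (.q2 s)) =
        0 := by
    intro s
    rw [← Finset.sum_smul, ← add_smul]
    have h2 := hQ s
    unfold Quad.val at h2
    have h3 : ∑ k, ((m.count k : ℤ) * (Q s).B k + ∑ i, (Q s).A i k * (m.count i : ℤ) *
        (m.count k : ℤ)) + (Q s).d = 0 := by
      rw [← h2, Finset.sum_add_distrib, Finset.sum_comm]
      have h4 : ∑ k, (m.count k : ℤ) * (Q s).B k = ∑ k, (Q s).B k * (m.count k : ℤ) :=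
        Finset.sum_congr rfl fun k _ => mul_comm _ _
      rw [h4]
      ring
    rw [h3, zero_smul]
  rw [Finset.sum_congr rfl fun s _ => e3 s, Finset.sum_const_zero, add_zero] at r0
  exact r0

lemma lem3 (h : Rel n Q g) (m m' : List V) (hm' : n ∉ m') :
    u g (m ++ m') * g .z * g .q0 = u g m * g .z * g .q0 := by
  induction m' using List.reverseRecOn with
  | nil => rw [List.append_nil]
  | append_singleton m' j ih =>
    rw [List.mem_append, List.mem_singleton, not_or] at hm'
    rw [← ih hm'.1, ← List.append_assoc, u_snoc, mul_assoc, mul_assoc, ← mul_assoc (g (.x j)),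
      ← h.rh j (fun h1 => hm'.2 h1.symm), mul_assoc]

end

lemma exists_list {V : Type} [DecidableEq V] (y : V → ℕ) (s : Finset V) :
    ∃ m : List V, ∀ v, m.count v = if v ∈ s then y v else 0 := by
  induction s using Finset.induction_on with
  | empty => exact ⟨[], fun v => by simp⟩
  | insert a s ha ih =>
    obtain ⟨m, hm⟩ := ih
    refine ⟨List.replicate (y a) a ++ m, fun v => ?_⟩
    rw [List.count_append, hm, List.count_replicate]
    by_cases hva : v = a
    · subst hva
      simp [ha]
    · have h1 : ¬ a = v := fun h => hva h.symm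
      simp [hva, h1]

theorem t : StmDerive := by
  intro V ι _ _ _ n Q A _ g h c hc
  obtain ⟨y, hyn, hy⟩ := hc
  obtain ⟨m', hm'⟩ := exists_list y (Finset.univ.erase n)
  have hn : n ∉ m' := by
    rw [← List.count_eq_zero, hm']
    simp
  have h1 := lem3 h (List.replicate c n) m' hn
  have h2 : ∀ v, (List.replicate c n ++ m').count v = y v := by
    intro v
    rw [List.count_append, List.count_replicate, hm']
    by_cases hv : v = n
    · subst hv
      simp [hyn]
    · have h3 : ¬ n = v := fun h => hv h.symm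
      simp [hv, h3]
  have h3 := lem2 h (List.replicate c n ++ m') (fun s => by
    simp only [h2]
    exact hy s)
  rw [h3] at h1
  unfold W
  rw [← List.map_replicate]
  exact h1.symm

end Pool.Agent.Y171.WK
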